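import Pool.Agent.H21.QW.Star

/-!
# The base of the walk (row 366)

`p` is the law of a line `L` (with its context `b`) and of an abstract time `T`; `N` is the height of
the line at its time, `V` the label of the line. The base of the walk: two times on one line. The
first time is a part of the context, the height at the first time is the point, the second time is
the time of the step.
-/

set_option autoImplicit false
set_option linter.unusedSectionVars false
set_option linter.unusedVariables false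

namespace Pool.QB32

open Finset Real
open Pool.Agent.H49.Ent Pool.Agent.H32.Dense Pool.CH30 Pool.STK Pool.RC21

variable {Ω Λ Θ B A S : Type} [Fintype Ω] {p : Ω → ℝ} {c k : ℕ}

section gen

variable (hp : IsLaw p) (L : Ω → Λ) (T : Ω → Θ) (b : Ω → B) (V : Ω → A) (N : Ω → Fin c → ℤ)

/-- Two times on one line. -/
noncomputable def p2 (p : Ω → ℝ) (L : Ω → Λ) : Ω × Ω → ℝ := dbl p L

/-- The point. -/
def n2 (N : Ω → Fin c → ℤ) (w : Ω × Ω) : Fin c → ℤ := N w.1

/-- The context. -/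
def b2 (T : Ω → Θ) (b : Ω → B) (w : Ω × Ω) : B × Θ := (b w.1, T w.1)

/-- The label. -/
def V2 (T : Ω → Θ) (b : Ω → B) (V : Ω → A) (w : Ω × Ω) : A × (B × Θ) := (V w.1, (b w.1, T w.1))

/-- The time. -/
def T2 (T : Ω → Θ) (w : Ω × Ω) : Θ := T w.2

include hp in
theorem p2_law : IsLaw (p2 p L) :=
  ⟨fun w => glue_nonneg hp.nonneg hp.nonneg w,
    (sum_glue hp.nonneg (fun _ => rfl)).trans hp.sum_one⟩

include hp in
theorem p2_fst : Push (p2 p L) p (fun w => w.1) := push_fst hp.nonneg (fun _ => rfl)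

include hp in
theorem p2_snd : Push (p2 p L) p (fun w => w.2) := push_snd hp.nonneg (fun _ => rfl)

include hp in
theorem p2_pos {w : Ω × Ω} (hw : 0 < p2 p L w) : 0 < p w.1 ∧ 0 < p w.2 ∧ L w.1 = L w.2 :=
  (glue_pos_iff hp.nonneg hp.nonneg w).mp hw

include hp in
/-- The second time given the first sample. -/
theorem time_snd : CH (p2 p L) (fun w => T w.2) (fun w => w.1) = CH p T L := by
  have h1 := CH_glue_snd (p₁ := p) (p₂ := p) (Z₁ := L) (Z₂ := L) hp.nonneg hp.nonneg
    (fun _ => rfl) T (Y := L) (fun ω => ω) (fun _ _ _ _ h => h)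
  rw [← h1]
  refine CH_congr (p2_law hp L).nonneg (fun _ _ _ _ h => (Prod.ext_iff.1 h).1)
    (fun _ _ _ _ h => (Prod.ext_iff.1 h).1) ?_ ?_
  · intro w w' hw hw' h
    have h2 : w.1 = w'.1 := h
    have h3 := (p2_pos hp L hw).2.2
    have h4 := (p2_pos hp L hw').2.2
    refine Prod.ext ?_ h2
    show L w.2 = L w'.2
    rw [← h3, ← h4, h2]
  · intro w w' _ _ h
    exact (Prod.ext_iff.1 h).2

include hp in
/-- The first time given the second sample. -/
theorem time_fst : CH (p2 p L) (fun w => T w.1) (fun w => w.2) = CH p T L := by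
  have h1 := CH_glue_fst (p₁ := p) (p₂ := p) (Z₁ := L) (Z₂ := L) hp.nonneg hp.nonneg
    (fun _ => rfl) T (Y := L) (fun ω => ω) (fun _ _ _ _ h => h)
  rw [← h1]
  refine CH_congr (p2_law hp L).nonneg (fun _ _ _ _ h => (Prod.ext_iff.1 h).1)
    (fun _ _ _ _ h => (Prod.ext_iff.1 h).1) ?_ ?_
  · intro w w' hw hw' h
    have h2 : w.2 = w'.2 := h
    have h3 := (p2_pos hp L hw).2.2
    have h4 := (p2_pos hp L hw').2.2
    refine Prod.ext ?_ h2
    show L w.1 = L w'.1
    rw [h3, h4, h2]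
  · intro w w' _ _ h
    exact (Prod.ext_iff.1 h).2

variable {d0 d1 : ℝ}

include hp in
/-- **(h3)** The time is almost independent of everything else. -/
theorem base_h3 (hb : Det p L b) (H0 : CH p T b - CH p T L ≤ d0) :
    CH (p2 p L) (T2 T) (b2 T b) -
      CH (p2 p L) (T2 T) (fun w => (V2 T b V w, (n2 N w, b2 T b w))) ≤ d0 := by
  have h0 := (p2_law hp L).nonneg
  have h1 : CH (p2 p L) (T2 T) (fun w => w.1) ≤
      CH (p2 p L) (T2 T) (fun w => (V2 T b V w, (n2 N w, b2 T b w))) := by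
    refine CH_mono_cond h0 fun w w' _ _ h => ?_
    have h2 : w.1 = w'.1 := h
    simp only [V2, n2, b2, h2]
  have h2 : CH (p2 p L) (T2 T) (fun w => w.1) = CH p T L := time_snd hp L T
  have h3 : CH (p2 p L) (T2 T) (b2 T b) ≤ CH (p2 p L) (T2 T) (fun w => b w.2) := by
    refine CH_mono_cond h0 fun w w' hw hw' h => ?_
    have h4 := p2_pos hp L hw
    have h5 := p2_pos hp L hw'
    have h6 := hb _ _ h4.1 h4.2.1 h4.2.2
    have h7 := hb _ _ h5.1 h5.2.1 h5.2.2
    unfold b2 at h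
    have h8 := (Prod.ext_iff.1 h).1
    simp only at h8
    rw [← h6, ← h7, h8]
  have h4 : CH (p2 p L) (T2 T) (fun w => b w.2) = CH p T b := (p2_snd hp L).CH T b
  linarith

include hp in
/-- The information of the second time. -/
theorem base_t {U : Type} (hb : Det p L b) (H0 : CH p T b - CH p T L ≤ d0)
    (F : Ω → S) (Y : Ω → U) :
    CH (p2 p L) (fun w => F w.1) (fun w => (Y w.1, b w.1)) - d0 ≤
      CH (p2 p L) (fun w => F w.1) (fun w => (T w.2, (Y w.1, b w.1))) := by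
  have h0 := (p2_law hp L).nonneg
  have h1 := CH_chain h0 (fun w => F w.1) (fun w => T w.2) (fun w => (Y w.1, b w.1))
  have h2 := CH_chain h0 (fun w => T w.2) (fun w => F w.1) (fun w => (Y w.1, b w.1))
  have h3 : CH (p2 p L) (fun w => (F w.1, T w.2)) (fun w => (Y w.1, b w.1)) =
      CH (p2 p L) (fun w => (T w.2, F w.1)) (fun w => (Y w.1, b w.1)) := by
    refine CH_congr h0 ?_ ?_ (fun _ _ _ _ h => h) (fun _ _ _ _ h => h) <;>
    · intro w w' _ _ h
      simp only [Prod.mk.injEq] at h ⊢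
      tauto
  have h4 : CH (p2 p L) (fun w => T w.2) (fun w => w.1) ≤
      CH (p2 p L) (fun w => T w.2) (fun w => (F w.1, (Y w.1, b w.1))) := by
    refine CH_mono_cond h0 fun w w' _ _ h => ?_
    have h2 : w.1 = w'.1 := h
    simp only [h2]
  have h5 := time_snd hp L T
  have h6 : CH (p2 p L) (fun w => T w.2) (fun w => (Y w.1, b w.1)) ≤
      CH (p2 p L) (fun w => T w.2) (fun w => b w.2) := by
    refine CH_mono_cond h0 fun w w' hw hw' h => ?_
    have h4 := p2_pos hp L hw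
    have h5 := p2_pos hp L hw'
    have h6 := hb _ _ h4.1 h4.2.1 h4.2.2
    have h7 := hb _ _ h5.1 h5.2.1 h5.2.2
    have h8 := (Prod.ext_iff.1 h).2
    simp only at h8
    show b w.2 = b w'.2
    rw [← h6, ← h7, h8]
  have h7 : CH (p2 p L) (fun w => T w.2) (fun w => b w.2) = CH p T b := (p2_snd hp L).CH T b
  linarith

include hp in
/-- The information of the first time. -/
theorem base_s {U : Type} (hb : Det p L b) (H0 : CH p T b - CH p T L ≤ d0)
    (F : Ω → S) (Y : Ω → U) :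
    CH (p2 p L) (fun w => F w.2) (fun w => (Y w.2, b w.2)) - d0 ≤
      CH (p2 p L) (fun w => F w.2) (fun w => (T w.1, (Y w.2, b w.2))) := by
  have h0 := (p2_law hp L).nonneg
  have h1 := CH_chain h0 (fun w => F w.2) (fun w => T w.1) (fun w => (Y w.2, b w.2))
  have h2 := CH_chain h0 (fun w => T w.1) (fun w => F w.2) (fun w => (Y w.2, b w.2))
  have h3 : CH (p2 p L) (fun w => (F w.2, T w.1)) (fun w => (Y w.2, b w.2)) =
      CH (p2 p L) (fun w => (T w.1, F w.2)) (fun w => (Y w.2, b w.2)) := by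
    refine CH_congr h0 ?_ ?_ (fun _ _ _ _ h => h) (fun _ _ _ _ h => h) <;>
    · intro w w' _ _ h
      simp only [Prod.mk.injEq] at h ⊢
      tauto
  have h4 : CH (p2 p L) (fun w => T w.1) (fun w => w.2) ≤
      CH (p2 p L) (fun w => T w.1) (fun w => (F w.2, (Y w.2, b w.2))) := by
    refine CH_mono_cond h0 fun w w' _ _ h => ?_
    have h2 : w.2 = w'.2 := h
    simp only [h2]
  have h5 := time_fst hp L T
  have h6 : CH (p2 p L) (fun w => T w.1) (fun w => (Y w.2, b w.2)) ≤
      CH (p2 p L) (fun w => T w.1) (fun w => b w.1) := by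
    refine CH_mono_cond h0 fun w w' hw hw' h => ?_
    have h4 := p2_pos hp L hw
    have h5 := p2_pos hp L hw'
    have h6 := hb _ _ h4.1 h4.2.1 h4.2.2
    have h7 := hb _ _ h5.1 h5.2.1 h5.2.2
    have h8 := (Prod.ext_iff.1 h).2
    simp only at h8
    show b w.1 = b w'.1
    rw [h6, h7, h8]
  have h7 : CH (p2 p L) (fun w => T w.1) (fun w => b w.1) = CH p T b := (p2_fst hp L).CH T b
  linarith

include hp in
/-- **(h1)** The point is almost independent of the label and the time. -/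
theorem base_h1 (hb : Det p L b) (H0 : CH p T b - CH p T L ≤ d0)
    (H1 : CH p N (fun ω => (T ω, b ω)) - CH p N (fun ω => (V ω, (T ω, b ω))) ≤ d1) :
    CH (p2 p L) (n2 N) (b2 T b) -
      CH (p2 p L) (n2 N) (fun w => (V2 T b V w, (T2 T w, b2 T b w))) ≤ d1 + d0 := by
  have h0 := (p2_law hp L).nonneg
  have h1 := base_t hp L T b hb H0 N (fun ω => (V ω, T ω))
  have h2 : CH (p2 p L) (fun w => N w.1) (fun w => (T w.2, ((V w.1, T w.1), b w.1))) =
      CH (p2 p L) (n2 N) (fun w => (V2 T b V w, (T2 T w, b2 T b w))) := by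
    refine CH_congr h0 (fun _ _ _ _ h => (Prod.ext_iff.1 h).1)
      (fun _ _ _ _ h => (Prod.ext_iff.1 h).1) ?_ ?_ <;>
    · intro w w' _ _ h
      simp only [V2, T2, b2, Prod.mk.injEq] at h ⊢
      tauto
  have h3 : CH (p2 p L) (fun w => N w.1) (fun w => ((V w.1, T w.1), b w.1)) =
      CH p N (fun ω => ((V ω, T ω), b ω)) := (p2_fst hp L).CH N (fun ω => ((V ω, T ω), b ω))
  have h4 : CH p N (fun ω => ((V ω, T ω), b ω)) = CH p N (fun ω => (V ω, (T ω, b ω))) := by
    refine CH_congr hp.nonneg (fun _ _ _ _ h => (Prod.ext_iff.1 h).1)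
      (fun _ _ _ _ h => (Prod.ext_iff.1 h).1) ?_ ?_ <;>
    · intro w w' _ _ h
      simp only [Prod.mk.injEq] at h ⊢
      tauto
  have h5 : CH (p2 p L) (n2 N) (b2 T b) = CH p N (fun ω => (b ω, T ω)) :=
    (p2_fst hp L).CH N (fun ω => (b ω, T ω))
  have h6 : CH p N (fun ω => (b ω, T ω)) = CH p N (fun ω => (T ω, b ω)) := by
    refine CH_congr hp.nonneg (fun _ _ _ _ h => (Prod.ext_iff.1 h).1)
      (fun _ _ _ _ h => (Prod.ext_iff.1 h).1) ?_ ?_ <;>
    · intro w w' _ _ h
      simp only [Prod.mk.injEq] at h ⊢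
      tauto
  linarith

/-- Two integer vectors at a bounded distance. -/
theorem near_CH {Γ U : Type} [Fintype Γ] {q : Γ → ℝ} (hq : IsLaw q) (x y : Γ → Fin c → ℤ)
    (Z : Γ → U) {C : ℝ} (h : ∀ γ, 0 < q γ → ∀ i, |((x γ i - y γ i : ℤ) : ℝ)| ≤ C) :
    CH q x Z ≤ CH q y Z + c * Real.log (4 * C + 1) := by
  have h1 := CH_le_add hq.nonneg x y Z
  have h2 := CH_le_vec hq.nonneg hq.sum_one x (fun γ => (y γ, Z γ)) (fun _ => 2 * C)
    (fun γ γ' hγ hγ' e i => by
      have e1 : y γ = y γ' := (Prod.ext_iff.1 e).1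
      have a1 := h γ hγ i
      have a2 := h γ' hγ' i
      rw [e1] at a1
      push_cast at a1 a2 ⊢
      rw [abs_le] at a1 a2 ⊢
      constructor <;> linarith [a1.1, a1.2, a2.1, a2.2])
  rw [Ex_const hq.sum_one] at h2
  have h3 : 2 * (2 * C) + 1 = 4 * C + 1 := by ring
  rw [h3] at h2
  linarith

include hp in
/-- **(h2)** The end of the step is almost independent of the label given the time. -/
theorem base_h2 (hb : Det p L b) (hV : Det p L V) (H0 : CH p T b - CH p T L ≤ d0)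
    (H1 : CH p N (fun ω => (T ω, b ω)) - CH p N (fun ω => (V ω, (T ω, b ω))) ≤ d1)
    (g : Θ → A × (B × Θ) → Fin c → ℤ) {C : ℝ}
    (hg : ∀ w, 0 < p2 p L w → ∀ i,
      |((N w.2 i - (N w.1 i + g (T w.2) (V2 T b V w) i) : ℤ) : ℝ)| ≤ C) :
    CH (p2 p L) (fun w => n2 N w + g (T2 T w) (V2 T b V w)) (fun w => (T2 T w, b2 T b w)) -
      CH (p2 p L) (fun w => n2 N w + g (T2 T w) (V2 T b V w))
        (fun w => (V2 T b V w, (T2 T w, b2 T b w))) ≤ d1 + d0 + 2 * (c * Real.log (4 * C + 1)) := by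
  have hl := p2_law hp L
  have h0 := hl.nonneg
  -- the height at the second time
  have a1 := near_CH hl (fun w => n2 N w + g (T2 T w) (V2 T b V w)) (fun w => N w.2)
    (fun w => (T2 T w, b2 T b w)) (C := C) (fun w hw i => by
      have := hg w hw i
      rw [← abs_neg] at this
      refine le_trans (le_of_eq ?_) this
      congr 1
      simp only [n2, T2, Pi.add_apply]
      push_cast
      ring)
  have a2 := near_CH hl (fun w => N w.2) (fun w => n2 N w + g (T2 T w) (V2 T b V w))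
    (fun w => (V2 T b V w, (T2 T w, b2 T b w))) (C := C) (fun w hw i => by
      have := hg w hw i
      refine le_trans (le_of_eq ?_) this
      congr 1)
  have hbV : ∀ w, 0 < p2 p L w → b w.1 = b w.2 ∧ V w.1 = V w.2 := fun w hw => by
    have h4 := p2_pos hp L hw
    exact ⟨hb _ _ h4.1 h4.2.1 h4.2.2, hV _ _ h4.1 h4.2.1 h4.2.2⟩
  have a3 : CH (p2 p L) (fun w => N w.2) (fun w => (T2 T w, b2 T b w)) ≤
      CH p N (fun ω => (T ω, b ω)) := by
    rw [← (p2_snd hp L).CH N (fun ω => (T ω, b ω))]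
    refine CH_mono_cond h0 fun w w' hw hw' h => ?_
    simp only [T2, b2, Prod.mk.injEq] at h ⊢
    rw [← (hbV w hw).1, ← (hbV w' hw').1]
    exact ⟨h.1, h.2.1⟩
  have a4 := base_s hp L T b hb H0 N (fun ω => (V ω, T ω))
  have a5 : CH (p2 p L) (fun w => N w.2) (fun w => ((V w.2, T w.2), b w.2)) =
      CH p N (fun ω => ((V ω, T ω), b ω)) := (p2_snd hp L).CH N (fun ω => ((V ω, T ω), b ω))
  have a6 : CH p N (fun ω => ((V ω, T ω), b ω)) = CH p N (fun ω => (V ω, (T ω, b ω))) := by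
    refine CH_congr hp.nonneg (fun _ _ _ _ h => (Prod.ext_iff.1 h).1)
      (fun _ _ _ _ h => (Prod.ext_iff.1 h).1) ?_ ?_ <;>
    · intro w w' _ _ h
      simp only [Prod.mk.injEq] at h ⊢
      tauto
  have a7 : CH (p2 p L) (fun w => N w.2) (fun w => (T w.1, ((V w.2, T w.2), b w.2))) ≤
      CH (p2 p L) (fun w => N w.2) (fun w => (V2 T b V w, (T2 T w, b2 T b w))) := by
    refine CH_mono_cond h0 fun w w' hw hw' h => ?_
    simp only [V2, T2, b2, Prod.mk.injEq] at h ⊢
    rw [(hbV w hw).1, (hbV w' hw').1, (hbV w hw).2, (hbV w' hw').2]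
    tauto
  linarith

/-! ### Fullness and nonfullness at the base -/

include hp in
/-- The time is as full as before. -/
theorem base_T (hb : Det p L b) (H0 : CH p T b - CH p T L ≤ d0) :
    CH p T b - d0 ≤ CH (p2 p L) (T2 T) (b2 T b) := by
  have h0 := (p2_law hp L).nonneg
  have h1 : CH (p2 p L) (T2 T) (fun w => w.1) ≤ CH (p2 p L) (T2 T) (b2 T b) := by
    refine CH_mono_cond h0 fun w w' _ _ h => ?_
    have h2 : w.1 = w'.1 := h
    simp only [b2, h2]
  have h2 : CH (p2 p L) (T2 T) (fun w => w.1) = CH p T L := time_snd hp L T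
  linarith

include hp in
/-- Functions of the line are as full as before. -/
theorem base_Y (hb : Det p L b) (H0 : CH p T b - CH p T L ≤ d0) (Y : Ω → S) (hY : Det p L Y) :
    CH p Y b - d0 ≤ CH (p2 p L) (fun w => Y w.1) (b2 T b) := by
  have h0 := (p2_law hp L).nonneg
  have h1 : CH (p2 p L) (fun w => Y w.1) (b2 T b) = CH p Y (fun ω => (b ω, T ω)) :=
    (p2_fst hp L).CH Y (fun ω => (b ω, T ω))
  have h2 := CH_chain hp.nonneg Y T b
  have h3 := CH_chain hp.nonneg T Y b
  have h4 : CH p (fun ω => (Y ω, T ω)) b = CH p (fun ω => (T ω, Y ω)) b := by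
    refine CH_congr hp.nonneg ?_ ?_ (fun _ _ _ _ h => h) (fun _ _ _ _ h => h) <;>
    · intro w w' _ _ h
      simp only [Prod.mk.injEq] at h ⊢
      tauto
  have h5 : CH p T L ≤ CH p T (fun ω => (Y ω, b ω)) :=
    CH_mono_cond hp.nonneg fun w w' hw hw' h => Prod.ext (hY _ _ hw hw' h) (hb _ _ hw hw' h)
  have h6 : CH p Y (fun ω => (T ω, b ω)) = CH p Y (fun ω => (b ω, T ω)) := by
    refine CH_congr hp.nonneg (fun _ _ _ _ h => (Prod.ext_iff.1 h).1)
      (fun _ _ _ _ h => (Prod.ext_iff.1 h).1) ?_ ?_ <;>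
    · intro w w' _ _ h
      simp only [Prod.mk.injEq] at h ⊢
      tauto
  rw [h1, ← h6]
  linarith

include hp in
/-- The point is nonfull at the base. -/
theorem base_nonfull (H1 : CH p N (fun ω => (T ω, b ω)) - CH p N (fun ω => (V ω, (T ω, b ω))) ≤ d1)
    (i₀ : Fin c) :
    CH (p2 p L) (fun w => n2 N w i₀) (fun w => ((fun i : {i : Fin c // i ≠ i₀} => n2 N w i),
      b2 T b w)) ≤
    CH p (fun ω => N ω i₀) (fun ω => ((fun i : {i : Fin c // i ≠ i₀} => N ω i),
      (V ω, (T ω, b ω)))) + d1 := by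
  have e1 : CH (p2 p L) (fun w => n2 N w i₀) (fun w => ((fun i : {i : Fin c // i ≠ i₀} => n2 N w i),
      b2 T b w)) = CH p (fun ω => N ω i₀) (fun ω => ((fun i : {i : Fin c // i ≠ i₀} => N ω i),
      (b ω, T ω))) :=
    (p2_fst hp L).CH (fun ω => N ω i₀) (fun ω => ((fun i : {i : Fin c // i ≠ i₀} => N ω i),
      (b ω, T ω)))
  have e2 : CH p (fun ω => N ω i₀) (fun ω => ((fun i : {i : Fin c // i ≠ i₀} => N ω i),
      (b ω, T ω))) = CH p (fun ω => N ω i₀) (fun ω => ((fun i : {i : Fin c // i ≠ i₀} => N ω i),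
      (T ω, b ω))) := by
    refine CH_congr hp.nonneg (fun _ _ _ _ h => (Prod.ext_iff.1 h).1)
      (fun _ _ _ _ h => (Prod.ext_iff.1 h).1) ?_ ?_ <;>
    · intro w w' _ _ h
      simp only [Prod.mk.injEq] at h ⊢
      tauto
  have key : ∀ {U : Type} (Z : Ω → U), CH p N Z =
      CH p (fun ω => N ω i₀) (fun ω => ((fun i : {i : Fin c // i ≠ i₀} => N ω i), Z ω)) +
      CH p (fun ω => (fun i : {i : Fin c // i ≠ i₀} => N ω i)) Z := by
    intro U Z
    have k1 := CH_chain hp.nonneg (fun ω => N ω i₀)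
      (fun ω => (fun i : {i : Fin c // i ≠ i₀} => N ω i)) Z
    have k2 : CH p (fun ω => (N ω i₀, (fun i : {i : Fin c // i ≠ i₀} => N ω i))) Z = CH p N Z := by
      refine CH_congr hp.nonneg ?_ ?_ (fun _ _ _ _ h => h) (fun _ _ _ _ h => h)
      · intro w w' _ _ h
        simp only [Prod.mk.injEq] at h
        funext i
        by_cases hi : i = i₀
        · rw [hi]
          exact h.1.1
        · exact congrFun h.1.2 ⟨i, hi⟩
      · intro w w' _ _ h
        have h1 : N w = N w' := (Prod.ext_iff.1 h).1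
        simp only [h1]
    linarith
  have k1 := key (fun ω => (T ω, b ω))
  have k2 := key (fun ω => (V ω, (T ω, b ω)))
  have k3 : CH p (fun ω => (fun i : {i : Fin c // i ≠ i₀} => N ω i)) (fun ω => (V ω, (T ω, b ω))) ≤
      CH p (fun ω => (fun i : {i : Fin c // i ≠ i₀} => N ω i)) (fun ω => (T ω, b ω)) :=
    CH_mono_cond hp.nonneg fun _ _ _ _ h => (Prod.ext_iff.1 h).2
  rw [e1, e2]
  linarith

end gen

/-! ### Heights of lines -/

section floors

variable (L : Ω → Λ) (T : Ω → Θ) (b : Ω → B) (V : Ω → A) (ν : Ω → Fin c → ℝ) (tau : Θ → ℤ)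
  (y : A → Fin k → ℤ) (be : A → Fin c → ℝ) (E : Θ → Fin k → Fin c → ℝ)

/-- The height of a label at a time, without the constant. -/
noncomputable def sh (t : Θ) (v : A) (i : Fin c) : ℝ := tau t * be v i - ∑ u, E t u i * y v u

/-- The height at the own time. -/
noncomputable def hN (ω : Ω) (i : Fin c) : ℤ := ⌊ν ω i + sh tau y be E (T ω) (V ω) i⌋

/-- The increment. -/
noncomputable def hg (t : Θ) (v : A × (B × Θ)) (i : Fin c) : ℤ :=
  ⌊sh tau y be E t v.1 i - sh tau y be E v.2.2 v.1 i⌋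

theorem floor_three (a b : ℝ) : |((⌊a⌋ - (⌊b⌋ + ⌊a - b⌋) : ℤ) : ℝ)| ≤ 1 := by
  have h1 := Int.floor_le a
  have h2 := Int.lt_floor_add_one a
  have h3 := Int.floor_le b
  have h4 := Int.lt_floor_add_one b
  have h5 := Int.floor_le (a - b)
  have h6 := Int.lt_floor_add_one (a - b)
  have h7 : (⌊a⌋ - (⌊b⌋ + ⌊a - b⌋) : ℤ) < 2 := by
    have : ((⌊a⌋ - (⌊b⌋ + ⌊a - b⌋) : ℤ) : ℝ) < 2 := by push_cast; linarith
    exact_mod_cast this
  have h8 : (-1 : ℤ) < (⌊a⌋ - (⌊b⌋ + ⌊a - b⌋) : ℤ) := by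
    have : ((-1 : ℤ) : ℝ) < ((⌊a⌋ - (⌊b⌋ + ⌊a - b⌋) : ℤ) : ℝ) := by push_cast; linarith
    exact_mod_cast this
  have h9 : |(⌊a⌋ - (⌊b⌋ + ⌊a - b⌋) : ℤ)| ≤ 1 := by
    rw [abs_le]
    constructor <;> omega
  exact_mod_cast h9

/-- The increments for the base of the walk. -/
theorem hg_near (hp : IsLaw p) (hν : Det p L ν) (hV : Det p L V) {w : Ω × Ω}
    (hw : 0 < p2 p L w) (i : Fin c) :
    |((hN T V ν tau y be E w.2 i - (hN T V ν tau y be E w.1 i +
      hg (B := B) tau y be E (T w.2) (V2 T b V w) i) : ℤ) : ℝ)| ≤ 1 := by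
  obtain ⟨h1, h2, h3⟩ := p2_pos hp L hw
  have e1 : ν w.1 = ν w.2 := hν _ _ h1 h2 h3
  have e2 : V w.1 = V w.2 := hV _ _ h1 h2 h3
  have h4 := floor_three (ν w.2 i + sh tau y be E (T w.2) (V w.2) i)
    (ν w.1 i + sh tau y be E (T w.1) (V w.1) i)
  unfold hN hg V2
  simp only
  have e3 : ν w.2 i + sh tau y be E (T w.2) (V w.2) i -
      (ν w.1 i + sh tau y be E (T w.1) (V w.1) i) =
      sh tau y be E (T w.2) (V w.1) i - sh tau y be E (T w.1) (V w.1) i := by
    rw [e1, e2]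
    ring
  rw [e3] at h4
  exact h4

/-- The increment in the form of `QD.g_eq`. -/
theorem hg_eq (t : Θ) (v : A × (B × Θ)) (i : Fin c) :
    |(hg tau y be E t v i : ℝ) - (tau t * be v.1 i - ∑ u, E t u i * y v.1 u + 0 +
      (-(sh tau y be E v.2.2 v.1 i)))| ≤ 1 := by
  unfold hg
  have h1 := Int.floor_le (sh tau y be E t v.1 i - sh tau y be E v.2.2 v.1 i)
  have h2 := Int.lt_floor_add_one (sh tau y be E t v.1 i - sh tau y be E v.2.2 v.1 i)
  have e1 : tau t * be v.1 i - ∑ u, E t u i * y v.1 u + 0 + (-(sh tau y be E v.2.2 v.1 i)) =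
      sh tau y be E t v.1 i - sh tau y be E v.2.2 v.1 i := by
    unfold sh
    ring
  rw [e1, abs_le]
  constructor <;> linarith

end floors

end Pool.QB32
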