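import Pool.Agent.H89.OCK.Stage

/-!
# Linked copies (row 366, R2, the entropy half)

`y ω l`, `l = 0, .., M`, are the positions of `M + 1` labels. The labels are linked by the relations
`y l = φ l (y 0) + defect`. A second copy of all labels with the same defects, the same coordinates
other than `u` and the same context satisfies exact relations of increments; its positions are nearly
full given the first copy.
-/

set_option autoImplicit false

namespace Pool.LNK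

open Finset Real
open Pool.Agent.H49.Ent Pool.Agent.H32.Dense Pool.STK Pool.KS6 Pool.OCK

variable {Ω Λ ζ : Type} [Fintype Ω] {p : Ω → ℝ}

/-! ### Digits of a nearly full integer -/

/-- The first `j` of `X` digits. -/
noncomputable def dg (X j : ℕ) (t : ℤ) : ℤ := ⌊(2 : ℝ) ^ j * ((t : ℝ) / 2 ^ X)⌋

theorem dg_eq {X j : ℕ} (hj : j ≤ X) (t : ℤ) : dg X j t = t / 2 ^ (X - j) := by
  unfold dg
  have h1 : (2 : ℝ) ^ j * ((t : ℝ) / 2 ^ X) = (t : ℝ) / ((2 ^ (X - j) : ℕ) : ℝ) := by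
    push_cast
    have : (2 : ℝ) ^ X = 2 ^ j * 2 ^ (X - j) := by rw [← pow_add]; congr 1; omega
    rw [this]
    field_simp
  rw [h1, Int.floor_div_natCast, Int.floor_intCast]
  push_cast
  rfl

theorem dg_self (X : ℕ) (t : ℤ) : dg X X t = t := by
  rw [dg_eq le_rfl, Nat.sub_self, pow_zero, Int.ediv_one]

theorem dg_of_le {X i j : ℕ} (hi : i ≤ j) (t : ℤ) (hj : j ≤ X) :
    dg X i t = dg X j t / 2 ^ (j - i) := by
  rw [dg_eq (hi.trans hj), dg_eq hj, Int.ediv_ediv_of_nonneg (by positivity), ← pow_add]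
  congr 2
  omega

theorem dg_mem {X j : ℕ} (hj : j ≤ X) (t : ℤ) :
    t ∈ Finset.Ico (dg X j t * 2 ^ (X - j)) ((dg X j t + 1) * 2 ^ (X - j)) := by
  rw [dg_eq hj, Finset.mem_Ico]
  have h0 : (0 : ℤ) < 2 ^ (X - j) := by positivity
  constructor
  · exact Int.ediv_mul_le t h0.ne'
  · have h1 := Int.emod_lt_of_pos t h0
    have h2 := Int.emod_add_mul_ediv t (2 ^ (X - j))
    nlinarith only [h1, h2]

theorem dg_near {X j : ℕ} (hj : j ≤ X) {t t' : ℤ} (h : dg X j t = dg X j t') :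
    |t - t'| < 2 ^ (X - j) := by
  have h1 := Finset.mem_Ico.1 (dg_mem hj t)
  have h2 := Finset.mem_Ico.1 (dg_mem hj t')
  rw [h] at h1
  rw [abs_lt]
  constructor <;> nlinarith only [h1, h2, h1.1, h1.2, h2.1, h2.2]

theorem dg_range {X j : ℕ} (hj : j ≤ X) {t : ℤ} (h0 : 0 ≤ t) (h1 : t < 2 ^ X) :
    0 ≤ dg X j t ∧ dg X j t < 2 ^ j := by
  rw [dg_eq hj]
  refine ⟨Int.ediv_nonneg h0 (by positivity), ?_⟩
  rw [Int.ediv_lt_iff_lt_mul (by positivity), ← pow_add]
  have : j + (X - j) = X := by omega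
  rwa [this]

/-- The digits after the first `j` have entropy at most `(X - j) log 2`. -/
theorem tail_le (hp : IsLaw p) (Z : Ω → ζ) (t : Ω → ℤ) {X j : ℕ} (hj : j ≤ X) :
    CH p t (fun ω => (dg X j (t ω), Z ω)) ≤ (X - j) * Real.log 2 := by
  have h1 := CH_le_card hp.nonneg hp.sum_one t (fun ω => (dg X j (t ω), Z ω))
    (fun c => Finset.Ico (c.1 * 2 ^ (X - j)) ((c.1 + 1) * 2 ^ (X - j)))
    (fun ω _ => dg_mem hj (t ω))
  refine h1.trans (le_of_eq ?_)
  have h2 : ∀ ω, Real.log ((Finset.Ico (dg X j (t ω) * 2 ^ (X - j))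
      ((dg X j (t ω) + 1) * 2 ^ (X - j))).card : ℝ) = (X - j) * Real.log 2 := by
    intro ω
    rw [Int.card_Ico]
    have h3 : ((dg X j (t ω) + 1) * 2 ^ (X - j) - dg X j (t ω) * 2 ^ (X - j)).toNat =
        2 ^ (X - j) := by
      have : (dg X j (t ω) + 1) * 2 ^ (X - j) - dg X j (t ω) * 2 ^ (X - j) =
          ((2 ^ (X - j) : ℕ) : ℤ) := by push_cast; ring
      rw [this, Int.toNat_natCast]
    rw [h3]
    push_cast
    rw [Real.log_pow, Nat.cast_sub hj]
  show Ex p (fun ω => Real.log ((Finset.Ico (dg X j (t ω) * 2 ^ (X - j))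
      ((dg X j (t ω) + 1) * 2 ^ (X - j))).card : ℝ)) = _
  simp_rw [h2]
  exact Ex_const hp.sum_one _

/-- The first `j` digits have entropy at most `j log 2`. -/
theorem head_le (hp : IsLaw p) (Z : Ω → ζ) (t : Ω → ℤ) {X j : ℕ} (hj : j ≤ X)
    (ht : ∀ ω, 0 < p ω → 0 ≤ t ω ∧ t ω < 2 ^ X) :
    CH p (fun ω => dg X j (t ω)) Z ≤ j * Real.log 2 := by
  have h1 := CH_le_card hp.nonneg hp.sum_one (fun ω => dg X j (t ω)) Z
    (fun _ => Finset.Ico 0 (2 ^ j))
    (fun ω hω => Finset.mem_Ico.2 (dg_range hj (ht ω hω).1 (ht ω hω).2))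
  refine h1.trans (le_of_eq ?_)
  rw [Ex_const hp.sum_one, Int.card_Ico]
  have h3 : ((2 : ℤ) ^ j - 0).toNat = 2 ^ j := by
    have : (2 : ℤ) ^ j - 0 = ((2 ^ j : ℕ) : ℤ) := by push_cast; ring
    rw [this, Int.toNat_natCast]
  rw [h3]
  push_cast
  rw [Real.log_pow]

/-- The first digits of a nearly full integer are nearly full. -/
theorem dg_low (hp : IsLaw p) (Z : Ω → ζ) (t : Ω → ℤ) {X j : ℕ} (hj : j ≤ X) {D : ℝ}
    (h : X * Real.log 2 - D ≤ CH p t Z) :
    j * Real.log 2 - D ≤ CH p (fun ω => dg X j (t ω)) Z := by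
  have h1 := CH_le_add hp.nonneg t (fun ω => dg X j (t ω)) Z
  have h2 := tail_le hp Z t hj
  linarith only [h, h1, h2]

/-- A window of digits of a nearly full integer is nearly full. -/
theorem dg_win (hp : IsLaw p) (Z : Ω → ζ) (t : Ω → ℤ) {X i j : ℕ} (hi : i ≤ j) (hj : j ≤ X)
    {D : ℝ} (ht : ∀ ω, 0 < p ω → 0 ≤ t ω ∧ t ω < 2 ^ X)
    (h : X * Real.log 2 - D ≤ CH p t Z) :
    (j - i) * Real.log 2 - D ≤ CH p (fun ω => dg X j (t ω)) (fun ω => (dg X i (t ω), Z ω)) := by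
  have h1 := CH_le_add hp.nonneg (fun ω => dg X j (t ω)) (fun ω => dg X i (t ω)) Z
  have h2 := dg_low hp Z t hj h
  have h3 := head_le hp Z t (hi.trans hj) ht
  linarith only [h1, h2, h3]

/-- The sum over the windows of the deficits. -/
theorem dg_sum (hp : IsLaw p) (Z : Ω → ζ) (t : Ω → ℤ) {X K W : ℕ} (hW : K * W ≤ X) {D : ℝ}
    (ht : ∀ ω, 0 < p ω → 0 ≤ t ω ∧ t ω < 2 ^ X) (h : X * Real.log 2 - D ≤ CH p t Z) :
    ∑ w ∈ Finset.range W, (K * Real.log 2 -
      CH p (fun ω => dg X (K * (w + 1)) (t ω)) (fun ω => (dg X (K * w) (t ω), Z ω))) ≤ D := by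
  have h1 : ∀ n, n ≤ W → CH p (fun ω => dg X (K * n) (t ω)) Z ≤
      ∑ w ∈ Finset.range n,
        CH p (fun ω => dg X (K * (w + 1)) (t ω)) (fun ω => (dg X (K * w) (t ω), Z ω)) := by
    intro n
    induction n with
    | zero =>
      intro _
      have := head_le hp Z t (Nat.zero_le X) ht
      simpa using this
    | succ n ih =>
      intro hn
      have h2 := ih (by omega)
      have h3 := CH_le_add hp.nonneg (fun ω => dg X (K * (n + 1)) (t ω))
        (fun ω => dg X (K * n) (t ω)) Z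
      rw [Finset.sum_range_succ]
      linarith only [h2, h3]
  have h2 := h1 W le_rfl
  have h3 := dg_low hp Z t hW h
  rw [Finset.sum_sub_distrib, Finset.sum_const, Finset.card_range, nsmul_eq_mul]
  push_cast at h3
  linarith only [h2, h3]

/-! ### Relations -/

/-- The defects of the relations `t l = φ l (t 0)`. -/
def dfc {M : ℕ} (φ : Fin M → ℤ → ℤ) (t : Fin (M + 1) → ℤ) (l : Fin M) : ℤ := t l.succ - φ l (t 0)

omit [Fintype Ω] in
/-- The base position and the defects determine all positions. -/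
theorem dfc_det {M : ℕ} {φ : Fin M → ℤ → ℤ} {t t' : Fin (M + 1) → ℤ} (h0 : t 0 = t' 0)
    (h : dfc φ t = dfc φ t') : t = t' := by
  funext l
  refine Fin.cases h0 (fun l => ?_) l
  have h1 := congrFun h l
  unfold dfc at h1
  rw [h0] at h1
  linarith only [h1]

/-- The base position is nearly full given the defects of the relations. -/
theorem dfc_ent (hp : IsLaw p) (L : Ω → Λ) {M : ℕ} (t : Ω → Fin (M + 1) → ℤ)
    (φ : Fin M → ℤ → ℤ) {X : ℕ} {B D : ℝ}
    (ht : ∀ ω, 0 < p ω → ∀ l, 0 ≤ t ω l ∧ t ω l < 2 ^ X)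
    (hφ : ∀ l x, 0 ≤ x → x < 2 ^ X → |(φ l x : ℝ)| ≤ B * 2 ^ X) (hB : 0 ≤ B)
    (hD : (M + 1) * (X * Real.log 2) - D ≤ CH p t L) :
    X * Real.log 2 - (D + M * Real.log (4 * B + 3)) ≤
      CH p (fun ω => t ω 0) (fun ω => (dfc φ (t ω), L ω)) := by
  have h1 := CH_le_add hp.nonneg t (fun ω => dfc φ (t ω)) L
  have h2 : CH p t (fun ω => (dfc φ (t ω), L ω)) ≤
      CH p (fun ω => t ω 0) (fun ω => (dfc φ (t ω), L ω)) := by
    refine CH_mono_left hp.nonneg fun ω ω' _ _ h => ?_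
    simp only [Prod.mk.injEq] at h
    exact dfc_det h.1 h.2.1
  have h3 : CH p (fun ω => dfc φ (t ω)) L ≤ M * (X * Real.log 2 + Real.log (4 * B + 3)) := by
    have h4 := CH_le_vec hp.nonneg hp.sum_one (fun ω => dfc φ (t ω)) L
      (fun _ => (1 + 2 * B) * 2 ^ X) (fun ω ω' h h' _ l => by
        obtain ⟨a1, a2⟩ := ht ω h l.succ
        obtain ⟨b1, b2⟩ := ht ω' h' l.succ
        have a3 := hφ l _ (ht ω h 0).1 (ht ω h 0).2
        have b3 := hφ l _ (ht ω' h' 0).1 (ht ω' h' 0).2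
        have a1' : (0 : ℝ) ≤ t ω l.succ := by exact_mod_cast a1
        have b1' : (0 : ℝ) ≤ t ω' l.succ := by exact_mod_cast b1
        have a2' : (t ω l.succ : ℝ) < 2 ^ X := by exact_mod_cast a2
        have b2' : (t ω' l.succ : ℝ) < 2 ^ X := by exact_mod_cast b2
        unfold dfc
        push_cast
        rw [abs_le] at a3 b3 ⊢
        constructor <;> nlinarith [a3.1, a3.2, b3.1, b3.2])
    refine h4.trans ?_
    rw [Ex_const hp.sum_one]
    refine mul_le_mul_of_nonneg_left ?_ (Nat.cast_nonneg M)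
    have h5 : (1 : ℝ) ≤ 2 ^ X := one_le_pow₀ (by norm_num)
    have h6 : X * Real.log 2 + Real.log (4 * B + 3) = Real.log (2 ^ X * (4 * B + 3)) := by
      rw [Real.log_mul (by positivity) (by positivity), Real.log_pow]
    rw [h6]
    refine Real.log_le_log (by positivity) ?_
    nlinarith only [h5]
  have h7 : CH p t L ≤ M * (X * Real.log 2 + Real.log (4 * B + 3)) +
      CH p (fun ω => t ω 0) (fun ω => (dfc φ (t ω), L ω)) := by linarith only [h1, h2, h3]
  nlinarith only [hD, h1, h2, h3]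

/-- The coordinates other than `u` of all labels. -/
def prp {M k : ℕ} (u : Fin k) (y : Fin (M + 1) → Fin k → ℤ) (l : Fin (M + 1)) (i : Fin k) : ℤ :=
  if i = u then 0 else y l i

/-- One coordinate is nearly full given the others. -/
theorem coord_ent (hp : IsLaw p) (L : Ω → Λ) {M k : ℕ} (y : Ω → Fin (M + 1) → Fin k → ℤ)
    (u : Fin k) {X : ℕ} {D : ℝ}
    (hy : ∀ ω, 0 < p ω → ∀ l i, 0 ≤ y ω l i ∧ y ω l i < 2 ^ X)
    (hD : (M + 1) * (k * (X * Real.log 2)) - D ≤ CH p y L) :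
    (M + 1) * (X * Real.log 2) - D ≤
      CH p (fun ω l => y ω l u) (fun ω => (prp u (y ω), L ω)) := by
  classical
  have h1 := CH_le_add hp.nonneg y (fun ω => prp u (y ω)) L
  have h2 : CH p y (fun ω => (prp u (y ω), L ω)) ≤
      CH p (fun ω l => y ω l u) (fun ω => (prp u (y ω), L ω)) := by
    refine CH_mono_left hp.nonneg fun ω ω' _ _ h => ?_
    simp only [Prod.mk.injEq] at h
    funext l i
    by_cases hi : i = u
    · rw [hi]
      exact congrFun h.1 l
    · have h3 := congrFun (congrFun h.2.1 l) i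
      unfold prp at h3
      rwa [if_neg hi, if_neg hi] at h3
  have h3 : CH p (fun ω => prp u (y ω)) L ≤ (M + 1) * ((k - 1) * (X * Real.log 2)) := by
    have h4 := CH_le_card hp.nonneg hp.sum_one (fun ω => prp u (y ω)) L
      (fun _ => Fintype.piFinset fun _ : Fin (M + 1) => Fintype.piFinset fun i : Fin k =>
        if i = u then ({0} : Finset ℤ) else Finset.Ico 0 (2 ^ X))
      (fun ω hω => by
        rw [Fintype.mem_piFinset]
        intro l
        rw [Fintype.mem_piFinset]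
        intro i
        unfold prp
        by_cases hi : i = u
        · rw [if_pos hi, if_pos hi]
          exact Finset.mem_singleton_self 0
        · rw [if_neg hi, if_neg hi]
          exact Finset.mem_Ico.2 (hy ω hω l i))
    refine h4.trans (le_of_eq ?_)
    rw [Ex_const hp.sum_one, Fintype.card_piFinset, Finset.prod_const, Finset.card_univ,
      Fintype.card_fin, Fintype.card_piFinset]
    have h5 : ∏ i : Fin k, (if i = u then ({0} : Finset ℤ) else Finset.Ico 0 (2 ^ X)).card =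
        (2 ^ X) ^ (k - 1) := by
      rw [← Finset.mul_prod_erase Finset.univ _ (Finset.mem_univ u), if_pos rfl,
        Finset.card_singleton, one_mul, Finset.prod_congr rfl (g := fun _ => 2 ^ X)]
      · rw [Finset.prod_const, Finset.card_erase_of_mem (Finset.mem_univ u), Finset.card_univ,
          Fintype.card_fin]
      · intro i hi
        rw [if_neg (Finset.ne_of_mem_erase hi), Int.card_Ico]
        have : (2 : ℤ) ^ X - 0 = ((2 ^ X : ℕ) : ℤ) := by push_cast; ring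
        rw [this, Int.toNat_natCast]
    rw [h5]
    push_cast
    rw [Real.log_pow, Real.log_pow, Real.log_pow]
    have hk : 1 ≤ k := by have := u.2; omega
    rw [Nat.cast_sub hk]
    push_cast
    ring
  have h4 : (M + 1) * (k * (X * Real.log 2)) =
      (M + 1) * ((k - 1) * (X * Real.log 2)) + ((M : ℝ) + 1) * (X * Real.log 2) := by ring
  linarith only [hD, h1, h2, h3]

/-! ### The second copy -/

/-- The condition of the second copy: defects, other coordinates, context. -/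
def lnc {M k : ℕ} (φ : Fin M → ℤ → ℤ) (u : Fin k) (y : Ω → Fin (M + 1) → Fin k → ℤ) (L : Ω → Λ)
    (ω : Ω) : (Fin M → ℤ) × ((Fin (M + 1) → Fin k → ℤ) × Λ) :=
  (dfc φ (fun l => y ω l u), (prp u (y ω), L ω))

/-- A label whose position determines the base position, given the defects. -/
def Inj {M : ℕ} (φ : Fin M → ℤ → ℤ) (b : Fin (M + 1)) : Prop :=
  ∀ t t' : Fin (M + 1) → ℤ, dfc φ t = dfc φ t' → t b = t' b → t 0 = t' 0

theorem inj_zero {M : ℕ} (φ : Fin M → ℤ → ℤ) : Inj φ 0 := fun _ _ _ h => h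

theorem inj_succ {M : ℕ} {φ : Fin M → ℤ → ℤ} {l : Fin M} (h : Function.Injective (φ l)) :
    Inj φ l.succ := by
  intro t t' h1 h2
  have h3 := congrFun h1 l
  unfold dfc at h3
  rw [h2] at h3
  exact h (by linarith only [h3])

section Copy

variable {M k : ℕ} {φ : Fin M → ℤ → ℤ} {u : Fin k} {y : Ω → Fin (M + 1) → Fin k → ℤ}
  {L : Ω → Λ} {X : ℕ} {B D : ℝ}

/-- Two copies. -/
noncomputable def cop (p : Ω → ℝ) (φ : Fin M → ℤ → ℤ) (u : Fin k)
    (y : Ω → Fin (M + 1) → Fin k → ℤ) (L : Ω → Λ) : Ω × Ω → ℝ := dbl p (lnc φ u y L)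

theorem dbl_law (hp : IsLaw p) (b : Ω → ζ) : IsLaw (dbl p b) :=
  ⟨fun w => glue_nonneg hp.nonneg hp.nonneg w,
    (sum_glue hp.nonneg (fun _ => rfl)).trans hp.sum_one⟩

theorem dbl_fst (hp : IsLaw p) (b : Ω → ζ) : Marg (dbl p b) p (fun w => w.1) :=
  marg_fst hp.nonneg (fun _ => rfl)

theorem dbl_snd (hp : IsLaw p) (b : Ω → ζ) : Marg (dbl p b) p (fun w => w.2) :=
  marg_snd hp.nonneg (fun _ => rfl)

theorem dbl_pos (hp : IsLaw p) (b : Ω → ζ) {w : Ω × Ω} (hw : 0 < dbl p b w) :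
    0 < p w.1 ∧ 0 < p w.2 ∧ b w.1 = b w.2 := (glue_pos_iff hp.nonneg hp.nonneg w).mp hw

/-- The relations of the increments between the two copies. -/
theorem cop_rel (hp : IsLaw p) {w : Ω × Ω} (hw : 0 < cop p φ u y L w) :
    L w.1 = L w.2 ∧ (∀ l i, i ≠ u → y w.1 l i = y w.2 l i) ∧
      ∀ l : Fin M, y w.1 l.succ u - y w.2 l.succ u = φ l (y w.1 0 u) - φ l (y w.2 0 u) := by
  obtain ⟨-, -, h⟩ := dbl_pos hp _ hw
  unfold lnc at h
  simp only [Prod.mk.injEq] at h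
  obtain ⟨h1, h2, h3⟩ := h
  refine ⟨h3, fun l i hi => ?_, fun l => ?_⟩
  · have h4 := congrFun (congrFun h2 l) i
    unfold prp at h4
    rwa [if_neg hi, if_neg hi] at h4
  · have h4 := congrFun h1 l
    unfold dfc at h4
    linarith only [h4]

/-- The positions of the second copy are nearly full given the first copy. -/
theorem cop_ent (hp : IsLaw p) (hy : ∀ ω, 0 < p ω → ∀ l i, 0 ≤ y ω l i ∧ y ω l i < 2 ^ X)
    (hφ : ∀ l x, 0 ≤ x → x < 2 ^ X → |(φ l x : ℝ)| ≤ B * 2 ^ X) (hB : 0 ≤ B)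
    (hD : (M + 1) * (k * (X * Real.log 2)) - D ≤ CH p y L) {b : Fin (M + 1)} (hb : Inj φ b) :
    X * Real.log 2 - (D + M * Real.log (4 * B + 3)) ≤
      CH (cop p φ u y L) (fun w => y w.2 b u) (fun w => w.1) := by
  have h1 := coord_ent hp L y u hy hD
  have h2 := dfc_ent hp (fun ω => (prp u (y ω), L ω)) (fun ω l => y ω l u) φ
    (fun ω hω l => hy ω hω l u) hφ hB h1
  have h3 : CH p (fun ω => y ω 0 u) (lnc φ u y L) ≤ CH p (fun ω => y ω b u) (lnc φ u y L) := by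
    refine CH_mono_left hp.nonneg fun ω ω' _ _ h => ?_
    simp only [Prod.mk.injEq] at h
    refine hb (fun l => y ω l u) (fun l => y ω' l u) ?_ h.1
    have h4 := h.2
    unfold lnc at h4
    exact (Prod.ext_iff.1 h4).1
  have h4 := CH_glue_snd (p₁ := p) (p₂ := p) (Z₁ := lnc φ u y L) (Z₂ := lnc φ u y L)
    hp.nonneg hp.nonneg (fun _ => rfl) (fun ω => y ω b u) (Y := lnc φ u y L) (fun ω => ω)
    (fun _ _ _ _ h => h)
  have h5 : CH (cop p φ u y L) (fun w => y w.2 b u) (fun w => (lnc φ u y L w.2, w.1)) ≤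
      CH (cop p φ u y L) (fun w => y w.2 b u) (fun w => w.1) := by
    refine CH_mono_cond (dbl_law hp _).nonneg fun w w' _ _ h => (Prod.ext_iff.1 h).2
  have h6 : CH (cop p φ u y L) (fun w => y w.2 b u) (fun w => (lnc φ u y L w.2, w.1)) =
      CH p (fun ω => y ω b u) (lnc φ u y L) := h4
  have h7 : CH p (fun ω => y ω 0 u) (fun ω => (dfc φ (fun l => y ω l u), (prp u (y ω), L ω))) =
      CH p (fun ω => y ω 0 u) (lnc φ u y L) := rfl
  linarith only [h2, h3, h5, h6, h7]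

/-- The digits of the second copy are nearly full given the first copy: heads, windows, and the sum
of the deficits of the windows. -/
theorem cop_dig (hp : IsLaw p) (hy : ∀ ω, 0 < p ω → ∀ l i, 0 ≤ y ω l i ∧ y ω l i < 2 ^ X)
    (hφ : ∀ l x, 0 ≤ x → x < 2 ^ X → |(φ l x : ℝ)| ≤ B * 2 ^ X) (hB : 0 ≤ B)
    (hD : (M + 1) * (k * (X * Real.log 2)) - D ≤ CH p y L) {b : Fin (M + 1)} (hb : Inj φ b) :
    (∀ j ≤ X, j * Real.log 2 - (D + M * Real.log (4 * B + 3)) ≤
      CH (cop p φ u y L) (fun w => dg X j (y w.2 b u)) (fun w => w.1)) ∧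
    (∀ i j, i ≤ j → j ≤ X → (j - i) * Real.log 2 - (D + M * Real.log (4 * B + 3)) ≤
      CH (cop p φ u y L) (fun w => dg X j (y w.2 b u)) (fun w => (dg X i (y w.2 b u), w.1))) ∧
    ∀ K W, K * W ≤ X → ∑ w ∈ Finset.range W, (K * Real.log 2 -
      CH (cop p φ u y L) (fun v => dg X (K * (w + 1)) (y v.2 b u))
        (fun v => (dg X (K * w) (y v.2 b u), v.1))) ≤ D + M * Real.log (4 * B + 3) := by
  have h1 := cop_ent (u := u) (L := L) hp hy hφ hB hD hb
  have h2 := dbl_law hp (lnc φ u y L)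
  have h3 : ∀ w, 0 < cop p φ u y L w → 0 ≤ y w.2 b u ∧ y w.2 b u < 2 ^ X := fun w hw =>
    hy w.2 (dbl_pos hp _ hw).2.1 b u
  exact ⟨fun j hj => dg_low h2 _ _ hj h1, fun i j hi hj => dg_win h2 _ _ hi hj h3 h1,
    fun K W hW => dg_sum h2 _ _ hW h3 h1⟩

/-! ### Starred copies -/

/-- Starred copies: the whole first copy and the value `pre` of the second one are kept, the second
copy is resampled. -/
noncomputable def str (p : Ω → ℝ) (φ : Fin M → ℤ → ℤ) (u : Fin k)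
    (y : Ω → Fin (M + 1) → Fin k → ℤ) (L : Ω → Λ) (pre : Ω → ζ) : (Ω × Ω) × (Ω × Ω) → ℝ :=
  dbl (cop p φ u y L) (fun w => (pre w.2, w.1))

variable {pre : Ω → ζ}

theorem str_law (hp : IsLaw p) : IsLaw (str p φ u y L pre) := dbl_law (dbl_law hp _) _

/-- Both copies have the law of the pair. -/
theorem str_fst (hp : IsLaw p) : Marg (str p φ u y L pre) (cop p φ u y L) (fun x => x.1) :=
  dbl_fst (dbl_law hp _) _

theorem str_snd (hp : IsLaw p) : Marg (str p φ u y L pre) (cop p φ u y L) (fun x => x.2) :=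
  dbl_snd (dbl_law hp _) _

/-- Two second copies with the same first copy are linked. -/
theorem str_rel (hp : IsLaw p) {x : (Ω × Ω) × (Ω × Ω)} (hx : 0 < str p φ u y L pre x) :
    0 < cop p φ u y L x.1 ∧ 0 < cop p φ u y L x.2 ∧ x.1.1 = x.2.1 ∧ pre x.1.2 = pre x.2.2 ∧
      L x.1.2 = L x.2.2 ∧ (∀ l i, i ≠ u → y x.1.2 l i = y x.2.2 l i) ∧
      ∀ l : Fin M, y x.1.2 l.succ u - y x.2.2 l.succ u =
        φ l (y x.1.2 0 u) - φ l (y x.2.2 0 u) := by
  obtain ⟨h1, h2, h3⟩ := dbl_pos (dbl_law hp _) _ hx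
  simp only [Prod.mk.injEq] at h3
  obtain ⟨h3, h4⟩ := h3
  obtain ⟨a1, a2, a3⟩ := cop_rel hp h1
  obtain ⟨b1, b2, b3⟩ := cop_rel hp h2
  rw [h4] at a1 a2 a3
  refine ⟨h1, h2, h4, h3, a1.symm.trans b1, fun l i hi => (a2 l i hi).symm.trans (b2 l i hi),
    fun l => ?_⟩
  have := a3 l
  have := b3 l
  linarith

end Copy

/-! ### The two kinds of relations -/

/-- Exact multiples. -/
def rAdd (N : ℤ) (x : ℤ) : ℤ := N * x

/-- Rounded real multiples. -/
noncomputable def rReal (v : ℝ) (x : ℤ) : ℤ := ⌊v * x⌋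

theorem rAdd_inj {N : ℤ} (hN : N ≠ 0) : Function.Injective (rAdd N) := fun a b h => by
  unfold rAdd at h
  exact mul_left_cancel₀ hN h

theorem rAdd_bd {N : ℤ} {B : ℝ} (hN : |(N : ℝ)| ≤ B) {X : ℕ} {x : ℤ} (h0 : 0 ≤ x)
    (h1 : x < 2 ^ X) : |(rAdd N x : ℝ)| ≤ B * 2 ^ X := by
  unfold rAdd
  push_cast
  rw [abs_mul]
  have h2 : |(x : ℝ)| ≤ 2 ^ X := by
    rw [abs_of_nonneg (by exact_mod_cast h0)]
    exact_mod_cast h1.le
  exact mul_le_mul hN h2 (abs_nonneg _) ((abs_nonneg _).trans hN)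

theorem rReal_bd {v : ℝ} (h0 : 0 ≤ v) (h1 : v ≤ 1) {X : ℕ} {x : ℤ} (hx : 0 ≤ x)
    (hX : x < 2 ^ X) : |(rReal v x : ℝ)| ≤ 1 * 2 ^ X := by
  unfold rReal
  have hx' : (0 : ℝ) ≤ x := by exact_mod_cast hx
  have hX' : (x : ℝ) ≤ 2 ^ X := by exact_mod_cast hX.le
  have h2 : 0 ≤ v * x := mul_nonneg h0 hx'
  have h3 : (0 : ℝ) ≤ ⌊v * x⌋ := by exact_mod_cast Int.floor_nonneg.2 h2
  rw [abs_of_nonneg h3]
  have h4 := Int.floor_le (v * x)
  nlinarith only [hX', h4, h1, hx']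

/-- Increments of rounded multiples. -/
theorem rReal_sub (v : ℝ) (x x' : ℤ) :
    |((rReal v x - rReal v x' : ℤ) : ℝ) - v * ((x - x' : ℤ) : ℝ)| ≤ 1 := by
  unfold rReal
  push_cast
  have h1 := Int.floor_le (v * x)
  have h2 := Int.lt_floor_add_one (v * x)
  have h3 := Int.floor_le (v * x')
  have h4 := Int.lt_floor_add_one (v * x')
  rw [abs_le]
  constructor <;> nlinarith

/-- The relations of a real ratio `v = (N + v') / 2 ^ m`: the base label `0`, the label `1` at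
`2 ^ m` times the base, the label `2` at `v'` times the base. -/
noncomputable def rel3 (m : ℕ) (v' : ℝ) : Fin 2 → ℤ → ℤ := ![rAdd (2 ^ m), rReal v']

theorem rel3_bd (m : ℕ) {v' : ℝ} (h0 : 0 ≤ v') (h1 : v' ≤ 1) {X : ℕ} (l : Fin 2) (x : ℤ)
    (hx : 0 ≤ x) (hX : x < 2 ^ X) : |(rel3 m v' l x : ℝ)| ≤ 2 ^ m * 2 ^ X := by
  have hm : (1 : ℝ) ≤ 2 ^ m := one_le_pow₀ (by norm_num)
  fin_cases l
  · exact rAdd_bd (N := 2 ^ m) (by push_cast; rw [abs_of_nonneg (by positivity)]) hx hX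
  · refine (rReal_bd h0 h1 hx hX).trans ?_
    exact mul_le_mul_of_nonneg_right hm (by positivity)

theorem rel3_inj (m : ℕ) (v' : ℝ) : Inj (rel3 m v') 1 :=
  inj_succ (l := 0) (rAdd_inj (N := 2 ^ m) (by positivity))

/-- The real ratio: `N := ⌊2 ^ m v⌋`, `v' := 2 ^ m v - N`. -/
theorem rel3_ratio (m : ℕ) (v : ℝ) {a a' b b' c c' : ℤ}
    (h1 : b - b' = rAdd (2 ^ m) a - rAdd (2 ^ m) a')
    (h2 : c - c' = rReal (Int.fract ((2 : ℝ) ^ m * v)) a - rReal (Int.fract ((2 : ℝ) ^ m * v)) a') :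
    b - b' = 2 ^ m * (a - a') ∧
      |((⌊(2 : ℝ) ^ m * v⌋ * (a - a') + (c - c') : ℤ) : ℝ) - v * ((b - b' : ℤ) : ℝ)| ≤ 1 := by
  have h3 : b - b' = 2 ^ m * (a - a') := by rw [h1]; unfold rAdd; ring
  refine ⟨h3, ?_⟩
  have h4 := rReal_sub (Int.fract ((2 : ℝ) ^ m * v)) a a'
  rw [← h2] at h4
  have h5 : ((⌊(2 : ℝ) ^ m * v⌋ * (a - a') + (c - c') : ℤ) : ℝ) - v * ((b - b' : ℤ) : ℝ) =
      ((c - c' : ℤ) : ℝ) - Int.fract ((2 : ℝ) ^ m * v) * ((a - a' : ℤ) : ℝ) := by
    rw [h3, Int.fract]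
    push_cast
    ring
  rw [h5]
  exact h4

end Pool.LNK
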